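import Pool.Agent.W348.RG.Stms

set_option autoImplicit false

open Finset Filter

namespace Pool.Agent.W376.RG

open Pool.Agent.W348.RG

/-! ### Chains in finite abelian groups of prime power order -/

lemma mem_closure_of_map {A Q : Type} [AddCommGroup A] [AddCommGroup Q] (f : A →+ Q)
    (S : Set A) (y : A) (h : f y ∈ AddSubgroup.closure (f '' S)) :
    y ∈ AddSubgroup.closure S ⊔ f.ker := by
  rw [← AddSubgroup.comap_map_eq]
  rw [AddSubgroup.mem_comap, AddMonoidHom.map_closure]
  exact h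

theorem chain (p : ℕ) (hp : p.Prime) (k : ℕ) : ∀ (A : Type) [AddCommGroup A],
    Nat.card A = p ^ k → ∃ a : ℕ → A, (∀ i, p • a i ∈ AddSubgroup.closure (a '' {l | l < i})) ∧
      AddSubgroup.closure (a '' {l | l < k}) = ⊤ := by
  induction k with
  | zero =>
    intro A _ hA
    have hs : Subsingleton A := by
      rw [pow_zero] at hA
      exact (Nat.card_eq_one_iff_unique.1 hA).1
    refine ⟨fun _ => 0, fun i => ?_, ?_⟩
    · rw [nsmul_zero]
      exact AddSubgroup.zero_mem _
    · apply Subsingleton.elim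
  | succ k ih =>
    intro A _ hA
    have hfin : Finite A := by
      apply Nat.finite_of_card_ne_zero
      rw [hA]
      exact pow_ne_zero _ hp.ne_zero
    have : Fact p.Prime := ⟨hp⟩
    obtain ⟨x, hx⟩ := exists_prime_addOrderOf_dvd_card' (G := A) p (by
      rw [hA]; exact dvd_pow_self _ (by omega))
    set H := AddSubgroup.zmultiples x with hH
    have hcH : Nat.card H = p := by rw [hH, Nat.card_zmultiples, hx]
    have hcQ : Nat.card (A ⧸ H) = p ^ k := by
      have h1 := AddSubgroup.card_eq_card_quotient_mul_card_addSubgroup H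
      rw [hA, hcH, pow_succ] at h1
      exact (Nat.eq_of_mul_eq_mul_right hp.pos h1).symm
    obtain ⟨b, hb1, hb2⟩ := ih (A ⧸ H) hcQ
    set f := QuotientAddGroup.mk' H with hf
    have hsurj : Function.Surjective f := QuotientAddGroup.mk'_surjective H
    choose g hg using hsurj
    set a : ℕ → A := fun n => Nat.casesOn n x (fun i => g (b i)) with ha
    have ha0 : a 0 = x := rfl
    have has : ∀ i, a (i + 1) = g (b i) := fun i => rfl
    have hfa : ∀ i, f (a (i + 1)) = b i := fun i => by rw [has, hg]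
    have himg : ∀ i, b '' {l | l < i} = f '' (a '' (Nat.succ '' {l | l < i})) := by
      intro i
      rw [Set.image_image, Set.image_image]
      apply Set.image_congr
      intro l _
      exact (hfa l).symm
    have hle : ∀ i, AddSubgroup.closure (a '' (Nat.succ '' {l | l < i})) ⊔ f.ker ≤
        AddSubgroup.closure (a '' {l | l < i + 1}) := by
      intro i
      apply sup_le
      · apply AddSubgroup.closure_mono
        apply Set.image_mono
        rintro _ ⟨l, hl, rfl⟩
        exact Nat.succ_lt_succ hl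
      · rw [hf, QuotientAddGroup.ker_mk', hH, AddSubgroup.zmultiples_le]
        apply AddSubgroup.subset_closure
        exact ⟨0, Nat.succ_pos i, ha0⟩
    refine ⟨a, ?_, ?_⟩
    · intro i
      cases i with
      | zero =>
        rw [ha0, ← hx, addOrderOf_nsmul_eq_zero]
        exact AddSubgroup.zero_mem _
      | succ i =>
        apply hle i
        apply mem_closure_of_map
        rw [← himg, map_nsmul, hfa]
        exact hb1 i
    · rw [eq_top_iff]
      intro y _
      apply hle k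
      apply mem_closure_of_map
      rw [← himg, hb2]
      exact AddSubgroup.mem_top _

lemma coeff_of_mem {A : Type} [AddCommGroup A] (a : ℕ → A) (i : ℕ) (x : A)
    (h : x ∈ AddSubgroup.closure (a '' {l | l < i})) : ∃ n : ℕ → ℤ, x = ∑ l ∈ range i, n l • a l := by
  induction h using AddSubgroup.closure_induction with
  | mem x hx =>
    obtain ⟨l, hl, rfl⟩ := hx
    refine ⟨Pi.single l 1, ?_⟩
    rw [sum_eq_single_of_mem l (mem_range.2 hl)]
    · simp
    · intro m _ hm
      simp [hm]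
  | zero => exact ⟨0, by simp⟩
  | add x y _ _ hx hy =>
    obtain ⟨n, hn⟩ := hx
    obtain ⟨m, hm⟩ := hy
    refine ⟨n + m, ?_⟩
    rw [hn, hm, ← sum_add_distrib]
    apply sum_congr rfl
    intro l _
    rw [Pi.add_apply, add_smul]
  | neg x _ hx =>
    obtain ⟨n, hn⟩ := hx
    refine ⟨-n, ?_⟩
    rw [hn, ← sum_neg_distrib]
    apply sum_congr rfl
    intro l _
    rw [Pi.neg_apply, neg_smul]

/-! ### The rings -/

/-- the ideal of the sequences divisible by `p ^ j` for almost all `p` -/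
def idl (U : Ultrafilter ℕ) (j : ℕ) : Ideal (ℕ → ℤ) where
  carrier := {r | ∀ᶠ p : ℕ in (U : Filter ℕ), (p : ℤ) ^ j ∣ r p}
  add_mem' := by
    intro r s hr hs
    filter_upwards [hr, hs] with p h1 h2
    exact dvd_add h1 h2
  zero_mem' := Eventually.of_forall fun p => dvd_zero _
  smul_mem' := by
    intro c r hr
    filter_upwards [hr] with p h1
    exact Dvd.dvd.mul_left h1 _

lemma mem_idl {U : Ultrafilter ℕ} {j : ℕ} {r : ℕ → ℤ} :
    r ∈ idl U j ↔ ∀ᶠ p : ℕ in (U : Filter ℕ), (p : ℤ) ^ j ∣ r p := Iff.rfl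

lemma idl_pow (U : Ultrafilter ℕ) (n : ℕ) : (idl U 1) ^ n ≤ idl U n := by
  induction n with
  | zero =>
    intro r _
    rw [mem_idl]
    exact Eventually.of_forall fun p => by simp
  | succ n ih =>
    rw [pow_succ, Ideal.mul_le]
    intro r hr s hs
    have h1 := mem_idl.1 (ih hr)
    have h2 := mem_idl.1 hs
    rw [mem_idl]
    filter_upwards [h1, h2] with p h3 h4
    rw [pow_succ]
    rw [pow_one] at h4
    exact mul_dvd_mul h3 h4

lemma idl_le (U : Ultrafilter ℕ) (j : ℕ) : idl U (j + 1) ≤ idl U 1 := by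
  intro r hr
  rw [mem_idl] at hr ⊢
  filter_upwards [hr] with p h
  rw [pow_one]
  exact (dvd_pow_self _ (by omega)).trans h

lemma idl_max (U : Ultrafilter ℕ) (hU : ∀ᶠ p : ℕ in (U : Filter ℕ), p.Prime) :
    (idl U 1).IsMaximal := by
  rw [Ideal.isMaximal_iff]
  constructor
  · intro h
    rw [mem_idl] at h
    obtain ⟨p, h1, h2⟩ := (h.and hU).exists
    rw [pow_one, Pi.one_apply] at h1
    have h3 : p ∣ 1 := by exact_mod_cast h1
    exact h2.one_lt.ne' (Nat.dvd_one.1 h3)
  · intro J x hJ hx hxJ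
    rw [mem_idl, ← Ultrafilter.eventually_not] at hx
    have h1 : ∀ p : ℕ, ∃ y : ℤ, (p.Prime ∧ ¬ (p : ℤ) ^ 1 ∣ x p) → (p : ℤ) ^ 1 ∣ 1 - y * x p := by
      intro p
      by_cases h : p.Prime ∧ ¬ (p : ℤ) ^ 1 ∣ x p
      · obtain ⟨h1, h2⟩ := h
        rw [pow_one] at h2
        have hc : IsCoprime (p : ℤ) (x p) := by
          rw [Prime.coprime_iff_not_dvd (Nat.prime_iff_prime_int.1 h1)]
          exact h2
        obtain ⟨a, b, hab⟩ := hc
        refine ⟨b, fun _ => ?_⟩
        rw [pow_one]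
        exact ⟨a, by linear_combination -hab⟩
      · exact ⟨0, fun h' => absurd h' h⟩
    choose y hy using h1
    have h2 : 1 - y * x ∈ idl U 1 := by
      rw [mem_idl]
      filter_upwards [hx, hU] with p h3 h4
      exact hy p ⟨h4, h3⟩
    have h3 := J.add_mem (hJ h2) (J.mul_mem_left y hxJ)
    simpa using h3

lemma inj_nat (U : Ultrafilter ℕ) (hU : (U : Filter ℕ) ≤ cofinite) (n : ℕ)
    (h : (n : (ℕ → ℤ) ⧸ idl U 1) = 0) : n = 0 := by
  by_contra hn
  have h1 : (n : (ℕ → ℤ) ⧸ idl U 1) = Ideal.Quotient.mk (idl U 1) (n : ℕ → ℤ) := by simp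
  rw [h1, Ideal.Quotient.eq_zero_iff_mem, mem_idl] at h
  have h2 : ∀ᶠ p : ℕ in (U : Filter ℕ), n < p := by
    apply hU
    rw [Nat.cofinite_eq_atTop]
    exact eventually_gt_atTop n
  obtain ⟨p, h3, h4⟩ := (h.and h2).exists
  rw [pow_one, Pi.natCast_apply] at h3
  have h5 : p ∣ n := by exact_mod_cast h3
  exact absurd (Nat.le_of_dvd (Nat.pos_of_ne_zero hn) h5) (by omega)

lemma unit_int (U : Ultrafilter ℕ) (hU : (U : Filter ℕ) ≤ cofinite)
    (hU2 : ∀ᶠ p : ℕ in (U : Filter ℕ), p.Prime) (j : ℕ) (n : ℤ) (hn : n ≠ 0) :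
    IsUnit (Int.castRingHom ((ℕ → ℤ) ⧸ idl U j) n) := by
  have h1 : ∀ p : ℕ, ∃ y : ℤ, (p.Prime ∧ n.natAbs < p) → (p : ℤ) ^ j ∣ n * y - 1 := by
    intro p
    by_cases h : p.Prime ∧ n.natAbs < p
    · obtain ⟨h1, h2⟩ := h
      have hc : IsCoprime ((p : ℤ) ^ j) n := by
        apply IsCoprime.pow_left
        rw [Prime.coprime_iff_not_dvd (Nat.prime_iff_prime_int.1 h1)]
        intro h3
        have h4 := Int.natAbs_dvd_natAbs.2 h3
        rw [Int.natAbs_natCast] at h4
        have := Nat.le_of_dvd (Int.natAbs_pos.2 hn) h4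
        omega
      obtain ⟨a, b, hab⟩ := hc
      refine ⟨b, fun _ => ⟨-a, by linear_combination hab⟩⟩
    · exact ⟨0, fun h' => absurd h' h⟩
  choose y hy using h1
  have h2 : ∀ᶠ p : ℕ in (U : Filter ℕ), n.natAbs < p := by
    apply hU
    rw [Nat.cofinite_eq_atTop]
    exact eventually_gt_atTop _
  apply IsUnit.of_mul_eq_one (Ideal.Quotient.mk (idl U j) y)
  have e1 : Int.castRingHom ((ℕ → ℤ) ⧸ idl U j) n = Ideal.Quotient.mk (idl U j) (n : ℕ → ℤ) := by
    simp
  rw [e1, ← map_mul, ← map_one (Ideal.Quotient.mk (idl U j)), Ideal.Quotient.eq, mem_idl]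
  filter_upwards [h2, hU2] with p h3 h4
  have := hy p ⟨h4, h3⟩
  simpa using this

/-! ### The Lie ring -/

section Lie

variable (A : ℕ → Type) [∀ p, LieRing (A p)]

/-- the product of Lie rings -/
@[reducible] def piLie : LieRing (∀ p, A p) where
  bracket x y := fun p => ⁅x p, y p⁆
  add_lie := by
    intro x y z
    funext p
    exact add_lie _ _ _
  lie_add := by
    intro x y z
    funext p
    exact lie_add _ _ _
  lie_self := by
    intro x
    funext p
    exact lie_self _
  leibniz_lie := by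
    intro x y z
    funext p
    exact leibniz_lie _ _ _

attribute [local instance] piLie

lemma pi_lie_apply (x y : ∀ p, A p) (p : ℕ) : ⁅x, y⁆ p = ⁅x p, y p⁆ := rfl

/-- the product of Lie rings as an algebra over the ring of sequences of integers -/
@[reducible] def piLieAlg : LieAlgebra (ℕ → ℤ) (∀ p, A p) where
  lie_smul := by
    intro t x y
    funext p
    change ⁅x p, t p • y p⁆ = t p • ⁅x p, y p⁆
    exact lie_zsmul _ _ _

attribute [local instance] piLieAlg

lemma pi_smul_apply (r : ℕ → ℤ) (x : ∀ p, A p) (p : ℕ) : (r • x) p = r p • x p := rfl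

/-- the ideal of the sequences which vanish almost everywhere -/
def NN (U : Ultrafilter ℕ) : LieIdeal (ℕ → ℤ) (∀ p, A p) where
  carrier := {x | ∀ᶠ p : ℕ in (U : Filter ℕ), x p = 0}
  add_mem' := by
    intro x y hx hy
    filter_upwards [hx, hy] with p h1 h2
    rw [Pi.add_apply, h1, h2, add_zero]
  zero_mem' := Eventually.of_forall fun p => rfl
  smul_mem' := by
    intro c x hx
    filter_upwards [hx] with p h1
    rw [pi_smul_apply, h1, smul_zero]
  lie_mem := by
    intro x y hy
    filter_upwards [hy] with p h1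
    rw [pi_lie_apply, h1, lie_zero]

lemma mem_NN {U : Ultrafilter ℕ} {x : ∀ p, A p} :
    x ∈ NN A U ↔ ∀ᶠ p : ℕ in (U : Filter ℕ), x p = 0 := Iff.rfl

/-- the projection -/
def pr (U : Ultrafilter ℕ) : (∀ p, A p) →ₗ[ℕ → ℤ] ((∀ p, A p) ⧸ NN A U) :=
  (NN A U).toSubmodule.mkQ

lemma pr_surj (U : Ultrafilter ℕ) : Function.Surjective (pr A U) :=
  (NN A U).toSubmodule.mkQ_surjective

lemma pr_eq_zero (U : Ultrafilter ℕ) (x : ∀ p, A p) :
    pr A U x = 0 ↔ ∀ᶠ p : ℕ in (U : Filter ℕ), x p = 0 := by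
  unfold pr
  rw [Submodule.mkQ_apply, Submodule.Quotient.mk_eq_zero]
  rfl

lemma pr_lie (U : Ultrafilter ℕ) (x y : ∀ p, A p) : pr A U ⁅x, y⁆ = ⁅pr A U x, pr A U y⁆ := rfl

lemma pr_eq (U : Ultrafilter ℕ) {x y : ∀ p, A p} (h : ∀ᶠ p : ℕ in (U : Filter ℕ), x p = y p) :
    pr A U x = pr A U y := by
  rw [← sub_eq_zero, ← map_sub, pr_eq_zero]
  filter_upwards [h] with p h1
  rw [Pi.sub_apply, h1, sub_self]

/-- lifting of combinations -/
lemma lift_comb (U : Ultrafilter ℕ) (a : ∀ p, ℕ → A p) (i : ℕ) (x : ∀ p, A p)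
    (h : ∀ᶠ p : ℕ in (U : Filter ℕ), x p ∈ AddSubgroup.closure (a p '' {l | l < i})) :
    pr A U x ∈ Submodule.span (ℕ → ℤ) ((fun l => pr A U (fun p => a p l)) '' {l | l < i}) := by
  have h1 : ∀ p : ℕ, ∃ n : ℕ → ℤ, x p ∈ AddSubgroup.closure (a p '' {l | l < i}) →
      x p = ∑ l ∈ range i, n l • a p l := by
    intro p
    by_cases hp : x p ∈ AddSubgroup.closure (a p '' {l | l < i})
    · obtain ⟨n, hn⟩ := coeff_of_mem (a p) i (x p) hp
      exact ⟨n, fun _ => hn⟩
    · exact ⟨0, fun h' => absurd h' hp⟩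
  choose n hn using h1
  have h2 : pr A U x = ∑ l ∈ range i, (fun p => n p l : ℕ → ℤ) • pr A U (fun p => a p l) := by
    rw [pr_eq A U (y := ∑ l ∈ range i, (fun p => n p l : ℕ → ℤ) • (fun p => a p l : ∀ p, A p))]
    · rw [map_sum]
      apply sum_congr rfl
      intro l _
      rw [map_smul]
    · filter_upwards [h] with p hp
      rw [hn p hp, Finset.sum_apply]
      rfl
  rw [h2]
  apply Submodule.sum_mem
  intro l hl
  apply Submodule.smul_mem
  apply Submodule.subset_span
  exact ⟨l, mem_range.1 hl, rfl⟩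

/-- the result for the ultrafilter -/
theorem main (hcf : S_cf) (U : Ultrafilter ℕ) (hU : (U : Filter ℕ) ≤ cofinite)
    (hU2 : ∀ᶠ p : ℕ in (U : Filter ℕ), p.Prime) (j : ℕ)
    (hA : ∀ᶠ p : ℕ in (U : Filter ℕ), ∃ k ≤ j, Nat.card (A p) = p ^ k) :
    ∃ (F : Type) (_ : Field F) (_ : Algebra ℚ F) (B : Type) (_ : LieRing B) (_ : LieAlgebra F B)
      (π : (∀ p, A p) →+ B), Module.Finite F B ∧ Module.finrank F B ≤ j ∧
        (∀ x y : ∀ p, A p, π (fun p => ⁅x p, y p⁆) = ⁅π x, π y⁆) ∧
        (∀ x, π x = 0 ↔ ∀ᶠ p : ℕ in (U : Filter ℕ), x p = 0) := by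
  classical
  have hmax := idl_max U hU2
  let F : Type := (ℕ → ℤ) ⧸ idl U 1
  let R : Type := (ℕ → ℤ) ⧸ idl U (j + 1)
  let iF : Field F := Ideal.Quotient.field (idl U 1)
  have hcz : CharZero F := charZero_of_inj_zero (fun n hn => inj_nat U hU n hn)
  -- `R` is a `ℚ`-algebra
  let gR : ℚ →+* R := IsLocalization.lift (M := nonZeroDivisors ℤ)
    (g := Int.castRingHom R) (fun y => unit_int U hU hU2 (j + 1) y (nonZeroDivisors.ne_zero y.2))
  let aR : Algebra ℚ R := gR.toAlgebra
  let f : R →+* F := Ideal.Quotient.factor (idl_le U j)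
  have hf : ∀ r : ℕ → ℤ, f (Ideal.Quotient.mk _ r) = Ideal.Quotient.mk _ r := fun r => rfl
  have hfs : Function.Surjective f := Ideal.Quotient.factor_surjective (idl_le U j)
  have hker : ∃ n : ℕ, RingHom.ker f ^ n = ⊥ := by
    refine ⟨j + 1, ?_⟩
    have h1 : RingHom.ker f = (idl U 1).map (Ideal.Quotient.mk (idl U (j + 1))) := by
      exact Ideal.Quotient.factor_ker (idl_le U j)
    rw [h1, ← Ideal.map_pow, Ideal.map_eq_bot_iff_le_ker, Ideal.mk_ker]
    exact idl_pow U (j + 1)
  obtain ⟨σ, hσ⟩ := hcf R F f hfs hker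
  let B : Type := (∀ p, A p) ⧸ NN A U
  have htors : Module.IsTorsionBySet (ℕ → ℤ) B (idl U (j + 1) : Set (ℕ → ℤ)) := by
    rintro b ⟨r, hr⟩
    obtain ⟨x, rfl⟩ := pr_surj A U b
    change r • pr A U x = 0
    rw [← map_smul, pr_eq_zero]
    have hr' : ∀ᶠ p : ℕ in (U : Filter ℕ), (p : ℤ) ^ (j + 1) ∣ r p := hr
    filter_upwards [hr', hA] with p h1 h2
    obtain ⟨k, hk, hc⟩ := h2
    obtain ⟨s, hs⟩ := h1
    rw [pi_smul_apply, hs]
    have h3 : (p ^ k : ℕ) • x p = 0 := by
      rw [← hc]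
      exact card_nsmul_eq_zero'
    have h4 : (p : ℤ) ^ (j + 1) * s = (s * (p : ℤ) ^ (j + 1 - k)) * ((p ^ k : ℕ) : ℤ) := by
      push_cast
      rw [mul_assoc, ← pow_add, Nat.sub_add_cancel (by omega)]
      ring
    rw [h4, mul_smul, natCast_zsmul, h3, smul_zero]
  let mR : Module R B := htors.module
  have hmR : ∀ (r : ℕ → ℤ) (b : B), (Ideal.Quotient.mk (idl U (j + 1)) r : R) • b = r • b :=
    fun r b => rfl
  let mF : Module F B := Module.compHom B σ
  have hmF : ∀ (c : F) (b : B), c • b = σ c • b := fun c b => rfl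
  -- representatives
  have hrep : ∀ r : ℕ → ℤ, ∃ r' : ℕ → ℤ, r - r' ∈ idl U 1 ∧
      ∀ b : B, (Ideal.Quotient.mk (idl U 1) r : F) • b = r' • b := by
    intro r
    obtain ⟨r', hr'⟩ := Ideal.Quotient.mk_surjective (σ (Ideal.Quotient.mk (idl U 1) r : F))
    refine ⟨r', ?_, ?_⟩
    · rw [← Ideal.Quotient.eq]
      have h1 := hσ (Ideal.Quotient.mk (idl U 1) r : F)
      rw [← hr', hf] at h1
      exact h1.symm
    · intro b
      rw [hmF, ← hr', hmR]
  let lF : LieAlgebra F B :=
    { mF with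
      lie_smul := by
        intro t x y
        obtain ⟨r, rfl⟩ := Ideal.Quotient.mk_surjective t
        obtain ⟨r', _, hr'⟩ := hrep r
        change ⁅x, (Ideal.Quotient.mk (idl U 1) r : F) • y⁆ =
          (Ideal.Quotient.mk (idl U 1) r : F) • ⁅x, y⁆
        rw [hr', hr']
        exact lie_smul r' x y }
  -- the generators
  have hch : ∀ p : ℕ, ∃ a : ℕ → A p, (p.Prime ∧ ∃ k ≤ j, Nat.card (A p) = p ^ k) →
      (∀ i, p • a i ∈ AddSubgroup.closure (a '' {l | l < i})) ∧
      AddSubgroup.closure (a '' {l | l < j}) = ⊤ := by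
    intro p
    by_cases h : p.Prime ∧ ∃ k ≤ j, Nat.card (A p) = p ^ k
    · obtain ⟨h1, k, hk, hc⟩ := h
      obtain ⟨a, ha1, ha2⟩ := chain p h1 k (A p) hc
      refine ⟨a, fun _ => ⟨ha1, ?_⟩⟩
      rw [eq_top_iff, ← ha2]
      apply AddSubgroup.closure_mono
      apply Set.image_mono
      intro l hl
      exact lt_of_lt_of_le hl hk
    · exact ⟨0, fun h' => absurd h' h⟩
  choose a ha using hch
  let α : ℕ → B := fun l => pr A U (fun p => a p l)
  have hspan : ∀ i, ∀ b ∈ Submodule.span (ℕ → ℤ) (α '' {l | l < i}),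
      b ∈ Submodule.span F (α '' {l | l < i}) := by
    intro i
    induction i with
    | zero =>
      intro b hb
      have : α '' {l | l < 0} = ∅ := by simp
      rw [this, Submodule.span_empty, Submodule.mem_bot] at hb
      rw [hb]
      exact Submodule.zero_mem _
    | succ i ih =>
      intro b hb
      have hset : α '' {l | l < i + 1} = insert (α i) (α '' {l | l < i}) := by
        ext z
        simp only [Set.mem_image, Set.mem_ofPred_eq, Set.mem_insert_iff]
        constructor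
        · rintro ⟨l, hl, rfl⟩
          rcases Nat.lt_succ_iff_lt_or_eq.1 hl with h | h
          · exact Or.inr ⟨l, h, rfl⟩
          · exact Or.inl (by rw [h])
        · rintro (h | ⟨l, hl, rfl⟩)
          · exact ⟨i, Nat.lt_succ_self i, h.symm⟩
          · exact ⟨l, Nat.lt_succ_of_lt hl, rfl⟩
      rw [hset, Submodule.mem_span_insert] at hb
      obtain ⟨r, b', hb', rfl⟩ := hb
      have hmono : ∀ z, z ∈ Submodule.span F (α '' {l | l < i}) →
          z ∈ Submodule.span F (α '' {l | l < i + 1}) := by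
        intro z hz
        apply Submodule.span_mono _ hz
        apply Set.image_mono
        intro l hl
        exact Nat.lt_succ_of_lt hl
      apply Submodule.add_mem
      · obtain ⟨r', hr1, hr2⟩ := hrep r
        have e1 : r • α i = (Ideal.Quotient.mk (idl U 1) r : F) • α i + (r - r') • α i := by
          rw [hr2, ← add_smul]
          congr 1
          ring
        rw [e1]
        apply Submodule.add_mem
        · apply Submodule.smul_mem
          apply Submodule.subset_span
          exact ⟨i, Nat.lt_succ_self i, rfl⟩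
        · apply hmono
          apply ih
          have e2 : (r - r') • α i = pr A U ((r - r') • (fun p => a p i : ∀ p, A p)) := by
            rw [map_smul]
          rw [e2]
          apply lift_comb
          have hr1' : ∀ᶠ p : ℕ in (U : Filter ℕ), (p : ℤ) ^ 1 ∣ (r - r') p := hr1
          filter_upwards [hr1', hU2, hA] with p h1 h2 h3
          obtain ⟨s, hs⟩ := h1
          rw [pi_smul_apply, hs, pow_one, mul_comm, mul_smul, natCast_zsmul]
          exact AddSubgroup.zsmul_mem _ ((ha p ⟨h2, h3⟩).1 i) s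
      · exact hmono _ (ih b' hb')
  have htop : Submodule.span F (α '' {l | l < j}) = ⊤ := by
    rw [eq_top_iff]
    intro b _
    apply hspan
    obtain ⟨x, rfl⟩ := pr_surj A U b
    apply lift_comb
    filter_upwards [hU2, hA] with p h2 h3
    rw [(ha p ⟨h2, h3⟩).2]
    exact AddSubgroup.mem_top _
  have hfinS : ((Finset.range j).image α : Set B) = α '' {l | l < j} := by
    rw [Finset.coe_image, Finset.coe_range]
    rfl
  refine ⟨F, iF, inferInstance, B, inferInstance, lF, (pr A U).toAddMonoidHom, ?_, ?_, ?_, ?_⟩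
  · refine ⟨⟨(Finset.range j).image α, ?_⟩⟩
    rw [hfinS]
    exact htop
  · have h1 := finrank_span_finset_le_card (R := F) ((Finset.range j).image α)
    rw [hfinS, Set.finrank, htop, finrank_top] at h1
    refine h1.trans ?_
    refine Finset.card_image_le.trans ?_
    simp
  · intro x y
    rfl
  · intro x
    exact pr_eq_zero A U x

end Lie

theorem ult (hcf : S_cf) : S_ult := by
  intro T hT hTp j A _ hA
  have hne : (cofinite ⊓ 𝓟 T).NeBot := by
    rw [Filter.inf_principal_neBot_iff]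
    intro s hs
    rw [mem_cofinite] at hs
    by_contra h
    rw [Set.not_nonempty_iff_eq_empty] at h
    apply hT
    apply hs.subset
    intro x hx hxs
    have : x ∈ s ∩ T := ⟨hxs, hx⟩
    rw [h] at this
    exact this
  let U : Ultrafilter ℕ := Ultrafilter.of (cofinite ⊓ 𝓟 T)
  have hU0 : (U : Filter ℕ) ≤ cofinite ⊓ 𝓟 T := Ultrafilter.of_le _
  have hU : (U : Filter ℕ) ≤ cofinite := hU0.trans inf_le_left
  have hUT : ∀ᶠ p : ℕ in (U : Filter ℕ), p ∈ T := by
    have : (U : Filter ℕ) ≤ 𝓟 T := hU0.trans inf_le_right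
    exact le_principal_iff.1 this
  obtain ⟨F, iF, aF, B, iB, lB, π, h1, h2, h3, h4⟩ := main A hcf U hU
    (hUT.mono fun p hp => hTp p hp) j (hUT.mono fun p hp => hA p hp)
  refine ⟨F, iF, aF, B, iB, lB, π, h1, h2, h3, ?_, ?_⟩
  · intro x hx
    rw [h4]
    have h5 : ∀ᶠ p : ℕ in (U : Filter ℕ), p ∉ {p | p ∈ T ∧ x p ≠ 0} := hU hx.compl_mem_cofinite
    filter_upwards [h5, hUT] with p h6 h7
    by_contra h8
    exact h6 ⟨h7, h8⟩
  · intro x hx h0
    rw [h4] at h0
    obtain ⟨p, h5, h6⟩ := (h0.and hUT).exists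
    exact hx p h6 h5

end Pool.Agent.W376.RG
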